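import Mathlib
import Pool.Agent.Helper5.JB.Pipe
import Pool.Agent.Helper92.GB.HALF

/-!
# MP_b6b996_nt, project JB: the family of the twists, and the union bound over all twisted correlation sums
-/

set_option autoImplicit false

namespace Pool.Agent.Helper5.JB

open Finset
open Pool.Agent.Helper92.GB (e ext F npi wt u2_norm_e u2_e_add u2_e_int)
open Pool.Agent.Helper92.GB.HALFaux (e_lip)
open Pool.Agent.Helper92.CB

/-- The correlation sum `∑_{n ≤ M} g(n + h₁) ⋯ g(n + h_k) χ(n) n^{it} e(n x)`. -/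
noncomputable def cort (g : ℕ → ℤ) {k : ℕ} (h : Fin k → ℕ) {q : ℕ} (χ : DirichletCharacter ℂ q) (t : ℝ)
    (M : ℕ) (x : ℝ) : ℂ :=
  ∑ n ∈ Icc 1 M, (∏ i, (g (n + h i) : ℂ)) * (χ (n : ZMod q) * npi n t * e (n * x))

/-- Square root cancellation in all correlations of order `k ≥ 2`, also with the twists by `χ(n) n^{it}` and
by `e(n x)`, uniformly in the length, in the shifts and in the twists. -/
def TWC (g : ℕ → ℤ) : Prop :=
  ∀ k : ℕ, 2 ≤ k → ∀ ε : ℝ, 0 < ε → ∃ C : ℝ, ∀ (q : ℕ) (χ : DirichletCharacter ℂ q) (t : ℝ) (M N : ℕ),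
    1 ≤ q → M ≤ N → 1 ≤ N → ∀ h : Fin k → ℕ, Function.Injective h → (∀ i, h i ≤ N) → ∀ x : ℝ,
      ‖cort g h χ t M x‖ ≤ C * ((q : ℝ) * (1 + |t|) * N) ^ ε * (N : ℝ) ^ (1 / 2 : ℝ)

/-- Test vectors. -/
private noncomputable def at3 (N M y r : ℕ) (χ : DirichletCharacter ℂ (r + 1)) (j : ℤ) (n : ℕ) : ℂ :=
  if n ≤ M then χ (n : ZMod (r + 1)) * npi n ((j : ℝ) / (N : ℝ) ^ 2) * e (n * ((y : ℝ) / (N : ℝ) ^ 2)) else 0

open Classical in
/-- The finite family of test vectors. -/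
private noncomputable def famT (m N : ℕ) : Finset (ℕ → ℂ) :=
  (range (N + 1)).biUnion fun M => (range (N ^ 2)).biUnion fun y => (range (N ^ (m + 1))).biUnion fun r =>
    (univ : Finset (DirichletCharacter ℂ (r + 1))).biUnion fun χ =>
      (Icc (-((N ^ (m + 3) : ℕ) : ℤ)) ((N ^ (m + 3) : ℕ) : ℤ)).image (at3 N M y r χ)

private theorem famT_norm (m N : ℕ) : ∀ a ∈ famT m N, ∀ n, ‖a n‖ ≤ 1 := by
  classical
  intro a ha n
  unfold famT at ha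
  obtain ⟨M, _, h1⟩ := mem_biUnion.1 ha
  obtain ⟨y, _, h2⟩ := mem_biUnion.1 h1
  obtain ⟨r, _, h3⟩ := mem_biUnion.1 h2
  obtain ⟨χ, _, h4⟩ := mem_biUnion.1 h3
  obtain ⟨j, _, rfl⟩ := mem_image.1 h4
  unfold at3
  split_ifs
  · rw [norm_mul, norm_mul, u2_norm_e, mul_one]
    exact mul_le_one₀ (χ.norm_le_one _) (norm_nonneg _) (Pool.Agent.Helper92.GB.RBaux.npi_norm _ _)
  · simp

private theorem famT_card (m N : ℕ) (hN : 1 ≤ N) : ((famT m N).card : ℝ) ≤ 6 * (N : ℝ) ^ (3 * m + 8) := by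
  classical
  have hNR : (1 : ℝ) ≤ N := by exact_mod_cast hN
  have h1 : (famT m N).card ≤ (N + 1) * (N ^ 2 * ∑ r ∈ range (N ^ (m + 1)),
      Fintype.card (DirichletCharacter ℂ (r + 1)) * (2 * N ^ (m + 3) + 1)) := by
    unfold famT
    refine card_biUnion_le.trans ?_
    refine (Finset.sum_le_card_nsmul _ _ (N ^ 2 * ∑ r ∈ range (N ^ (m + 1)),
      Fintype.card (DirichletCharacter ℂ (r + 1)) * (2 * N ^ (m + 3) + 1)) fun M _ => ?_).trans ?_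
    · refine card_biUnion_le.trans ?_
      refine (Finset.sum_le_card_nsmul _ _ (∑ r ∈ range (N ^ (m + 1)),
        Fintype.card (DirichletCharacter ℂ (r + 1)) * (2 * N ^ (m + 3) + 1)) fun y _ => ?_).trans ?_
      · refine card_biUnion_le.trans (Finset.sum_le_sum fun r _ => ?_)
        refine card_biUnion_le.trans ?_
        refine (Finset.sum_le_card_nsmul _ _ (2 * N ^ (m + 3) + 1) fun χ _ => ?_).trans ?_
        · refine card_image_le.trans ?_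
          rw [Int.card_Icc]
          omega
        · rw [Finset.card_univ, smul_eq_mul]
      · rw [card_range, smul_eq_mul]
    · rw [card_range, smul_eq_mul]
  have h2 : ((famT m N).card : ℝ) ≤ ((N : ℝ) + 1) * ((N : ℝ) ^ 2 * ∑ r ∈ range (N ^ (m + 1)),
      (N : ℝ) ^ (m + 1) * (2 * (N : ℝ) ^ (m + 3) + 1)) := by
    refine (Nat.cast_le.2 h1).trans ?_
    push_cast
    refine mul_le_mul_of_nonneg_left (mul_le_mul_of_nonneg_left ?_ (by positivity)) (by positivity)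
    refine Finset.sum_le_sum fun r hr => ?_
    refine mul_le_mul_of_nonneg_right ((Pool.Agent.Helper92.GB.UR.card_char r).trans ?_) (by positivity)
    have h3 : r + 1 ≤ N ^ (m + 1) := mem_range.1 hr
    exact_mod_cast h3
  rw [Finset.sum_const, card_range, nsmul_eq_mul] at h2
  refine h2.trans ?_
  push_cast
  have e1 : (1 : ℝ) ≤ (N : ℝ) ^ (m + 3) := one_le_pow₀ hNR
  have e2 : 2 * (N : ℝ) ^ (m + 3) + 1 ≤ 3 * (N : ℝ) ^ (m + 3) := by linarith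
  have e3 : (N : ℝ) + 1 ≤ 2 * N := by linarith
  calc ((N : ℝ) + 1) * ((N : ℝ) ^ 2 * ((N : ℝ) ^ (m + 1) * ((N : ℝ) ^ (m + 1) * (2 * (N : ℝ) ^ (m + 3) + 1))))
      ≤ (2 * (N : ℝ)) * ((N : ℝ) ^ 2 * ((N : ℝ) ^ (m + 1) * ((N : ℝ) ^ (m + 1) * (3 * (N : ℝ) ^ (m + 3))))) := by
        gcongr
    _ = 6 * (N : ℝ) ^ (3 * m + 8) := by ring

/-- comparison with a member of the family -/
private theorem twist_le (b : ℕ → ℂ) (hb : ∀ n, ‖b n‖ ≤ 1) (m N : ℕ) (hN : 1 ≤ N) (B : ℝ)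
    (h : ∀ a ∈ famT m N, ‖∑ n ∈ Icc 1 N, b n * a n‖ ≤ B) (q : ℕ) (hq : 1 ≤ q)
    (χ : DirichletCharacter ℂ q) (t : ℝ) (M : ℕ) (hM : M ≤ N) (x : ℝ)
    (hbig : (q : ℝ) * (1 + |t|) ≤ (N : ℝ) ^ (m + 1)) :
    ‖∑ n ∈ Icc 1 M, b n * (χ (n : ZMod q) * npi n t * e (n * x))‖ ≤ B + 8 := by
  classical
  have hNR : (1 : ℝ) ≤ N := by exact_mod_cast hN
  have hNpos : (0 : ℝ) < N := by linarith
  have hL : (0 : ℝ) < (N : ℝ) ^ 2 := by positivity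
  have hqR : (1 : ℝ) ≤ q := by exact_mod_cast hq
  have ht0 : (1 : ℝ) ≤ 1 + |t| := by linarith [abs_nonneg t]
  obtain ⟨r, rfl⟩ : ∃ r, q = r + 1 := ⟨q - 1, by omega⟩
  have hq2 : ((r + 1 : ℕ) : ℝ) ≤ (N : ℝ) ^ (m + 1) := by
    refine le_trans ?_ hbig
    nlinarith
  have hr : r < N ^ (m + 1) := by
    have : r + 1 ≤ N ^ (m + 1) := by exact_mod_cast hq2
    omega
  have ht2 : |t| ≤ (N : ℝ) ^ (m + 1) := by
    have : |t| ≤ ((r + 1 : ℕ) : ℝ) * (1 + |t|) := by nlinarith [abs_nonneg t]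
    linarith
  -- the ordinate
  set j : ℤ := ⌊t * (N : ℝ) ^ 2⌋ with hj
  have hjm : j ∈ Icc (-((N ^ (m + 3) : ℕ) : ℤ)) ((N ^ (m + 3) : ℕ) : ℤ) := by
    have h1 : t * (N : ℝ) ^ 2 ≤ ((N ^ (m + 3) : ℕ) : ℝ) := by
      push_cast
      calc t * (N : ℝ) ^ 2 ≤ |t| * (N : ℝ) ^ 2 := mul_le_mul_of_nonneg_right (le_abs_self t) hL.le
        _ ≤ (N : ℝ) ^ (m + 1) * (N : ℝ) ^ 2 := mul_le_mul_of_nonneg_right ht2 hL.le
        _ = _ := by ring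
    have h2 : -((N ^ (m + 3) : ℕ) : ℝ) ≤ t * (N : ℝ) ^ 2 := by
      push_cast
      have : -|t| ≤ t := neg_abs_le t
      calc -(N : ℝ) ^ (m + 3) = -((N : ℝ) ^ (m + 1)) * (N : ℝ) ^ 2 := by ring
        _ ≤ -|t| * (N : ℝ) ^ 2 := mul_le_mul_of_nonneg_right (by linarith) hL.le
        _ ≤ t * (N : ℝ) ^ 2 := mul_le_mul_of_nonneg_right this hL.le
    rw [mem_Icc]
    constructor
    · rw [hj, Int.le_floor]
      push_cast at h2 ⊢
      exact h2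
    · have h3 : ((j : ℤ) : ℝ) ≤ (((N ^ (m + 3) : ℕ) : ℤ) : ℝ) := by
        rw [Int.cast_natCast]
        exact (Int.floor_le _).trans h1
      exact_mod_cast h3
  have hjd : |t - (j : ℝ) / (N : ℝ) ^ 2| ≤ 1 / (N : ℝ) ^ 2 := by
    have h6 : (j : ℝ) ≤ t * (N : ℝ) ^ 2 := Int.floor_le _
    have h7 : t * (N : ℝ) ^ 2 < j + 1 := Int.lt_floor_add_one _
    have h8 : t - (j : ℝ) / (N : ℝ) ^ 2 = (t * (N : ℝ) ^ 2 - j) / (N : ℝ) ^ 2 := by
      field_simp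
    rw [h8, abs_div, abs_of_pos hL, abs_of_nonneg (by linarith)]
    exact div_le_div_of_nonneg_right (by linarith) hL.le
  -- the frequency
  set z : ℤ := ⌊x * (N : ℝ) ^ 2⌋ with hz
  set y : ℕ := (z % ((N ^ 2 : ℕ) : ℤ)).toNat with hy
  have hLz : ((N ^ 2 : ℕ) : ℤ) ≠ 0 := by positivity
  have hmod : 0 ≤ z % ((N ^ 2 : ℕ) : ℤ) := Int.emod_nonneg _ hLz
  have hyz : ((y : ℕ) : ℤ) = z % ((N ^ 2 : ℕ) : ℤ) := Int.toNat_of_nonneg hmod
  have hylt : y < N ^ 2 := by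
    have := Int.emod_lt_of_pos z (by positivity : (0 : ℤ) < ((N ^ 2 : ℕ) : ℤ))
    omega
  have hax : ∀ n : ℕ, e (n * ((y : ℝ) / (N : ℝ) ^ 2)) = e (n * ((z : ℝ) / (N : ℝ) ^ 2)) := by
    intro n
    have h1 : (z : ℝ) = (y : ℝ) + (N : ℝ) ^ 2 * ((z / ((N ^ 2 : ℕ) : ℤ) : ℤ) : ℝ) := by
      have h2 : z = (y : ℤ) + ((N ^ 2 : ℕ) : ℤ) * (z / ((N ^ 2 : ℕ) : ℤ)) := by
        rw [hyz]
        exact (Int.emod_add_mul_ediv z _).symm
      have h3 : ((z : ℤ) : ℝ) = (((y : ℤ) + ((N ^ 2 : ℕ) : ℤ) * (z / ((N ^ 2 : ℕ) : ℤ)) : ℤ) : ℝ) := by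
        exact_mod_cast h2
      rw [h3]
      push_cast
      ring
    have h4 : (n : ℝ) * ((z : ℝ) / (N : ℝ) ^ 2) = (n : ℝ) * ((y : ℝ) / (N : ℝ) ^ 2) +
        (((n : ℤ) * (z / ((N ^ 2 : ℕ) : ℤ)) : ℤ) : ℝ) := by
      rw [h1]
      push_cast
      field_simp
    rw [h4, u2_e_add, u2_e_int, mul_one]
  have hzd : |x - (z : ℝ) / (N : ℝ) ^ 2| ≤ 1 / (N : ℝ) ^ 2 := by
    have h6 : (z : ℝ) ≤ x * (N : ℝ) ^ 2 := Int.floor_le _
    have h7 : x * (N : ℝ) ^ 2 < z + 1 := Int.lt_floor_add_one _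
    have h8 : x - (z : ℝ) / (N : ℝ) ^ 2 = (x * (N : ℝ) ^ 2 - z) / (N : ℝ) ^ 2 := by
      field_simp
    rw [h8, abs_div, abs_of_pos hL, abs_of_nonneg (by linarith)]
    exact div_le_div_of_nonneg_right (by linarith) hL.le
  have hmem : at3 N M y r χ j ∈ famT m N := by
    unfold famT
    exact mem_biUnion.2 ⟨M, mem_range.2 (by omega), mem_biUnion.2 ⟨y, mem_range.2 hylt,
      mem_biUnion.2 ⟨r, mem_range.2 hr, mem_biUnion.2 ⟨χ, mem_univ _, mem_image_of_mem _ hjm⟩⟩⟩⟩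
  have hB := h _ hmem
  have e0 : ∑ n ∈ Icc 1 N, b n * at3 N M y r χ j n = ∑ n ∈ Icc 1 M, b n * (χ (n : ZMod (r + 1)) *
      npi n ((j : ℝ) / (N : ℝ) ^ 2) * e (n * ((y : ℝ) / (N : ℝ) ^ 2))) := by
    rw [← Finset.sum_subset (Finset.Icc_subset_Icc_right hM)
      (f := fun n => b n * at3 N M y r χ j n)]
    · refine Finset.sum_congr rfl fun n hn => ?_
      unfold at3
      rw [if_pos (mem_Icc.1 hn).2]
    · intro n hn hnM
      rw [mem_Icc] at hn hnM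
      unfold at3
      rw [if_neg fun hh => hnM ⟨hn.1, hh⟩, mul_zero]
  rw [e0] at hB
  have hcmp : ‖∑ n ∈ Icc 1 M, b n * (χ (n : ZMod (r + 1)) * npi n t * e (n * x)) -
      ∑ n ∈ Icc 1 M, b n * (χ (n : ZMod (r + 1)) *
      npi n ((j : ℝ) / (N : ℝ) ^ 2) * e (n * ((y : ℝ) / (N : ℝ) ^ 2)))‖ ≤ 8 := by
    rw [← Finset.sum_sub_distrib]
    refine (norm_sum_le _ _).trans ?_
    have h1 : ∀ n ∈ Icc 1 M, ‖b n * (χ (n : ZMod (r + 1)) * npi n t * e (n * x)) -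
        b n * (χ (n : ZMod (r + 1)) * npi n ((j : ℝ) / (N : ℝ) ^ 2) *
          e (n * ((y : ℝ) / (N : ℝ) ^ 2)))‖ ≤ 8 / N := by
      intro n hn
      obtain ⟨hn1, hn2⟩ := mem_Icc.1 hn
      have hnN : (n : ℝ) ≤ N := by exact_mod_cast hn2.trans hM
      rw [hax, ← mul_sub, norm_mul]
      have e1 : χ (n : ZMod (r + 1)) * npi n t * e (n * x) -
          χ (n : ZMod (r + 1)) * npi n ((j : ℝ) / (N : ℝ) ^ 2) * e (n * ((z : ℝ) / (N : ℝ) ^ 2)) =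
          χ (n : ZMod (r + 1)) * ((npi n t - npi n ((j : ℝ) / (N : ℝ) ^ 2)) * e (n * x) +
            npi n ((j : ℝ) / (N : ℝ) ^ 2) * (e (n * x) - e (n * ((z : ℝ) / (N : ℝ) ^ 2)))) := by
        ring
      rw [e1, norm_mul]
      have h9 : Real.log n ≤ N := by
        have : Real.log n ≤ n := (Real.log_le_sub_one_of_pos (by exact_mod_cast hn1)).trans
          (by linarith)
        linarith
      have h11 := Pool.Agent.Helper92.GB.RBaux.npi_lip n hn1 t ((j : ℝ) / (N : ℝ) ^ 2)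
      have h12 : Real.log n * |t - (j : ℝ) / (N : ℝ) ^ 2| ≤ 1 / N := by
        calc Real.log n * |t - (j : ℝ) / (N : ℝ) ^ 2| ≤ N * (1 / (N : ℝ) ^ 2) :=
              mul_le_mul h9 hjd (abs_nonneg _) hNpos.le
          _ = 1 / N := by field_simp
      have h13 : ‖e (n * x) - e (n * ((z : ℝ) / (N : ℝ) ^ 2))‖ ≤ 7 / N := by
        refine (e_lip _ _).trans ?_
        rw [← mul_sub, abs_mul, abs_of_nonneg (Nat.cast_nonneg n : (0 : ℝ) ≤ (n : ℝ))]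
        have h10 : (n : ℝ) * |x - (z : ℝ) / (N : ℝ) ^ 2| ≤ 1 / N := by
          calc (n : ℝ) * |x - (z : ℝ) / (N : ℝ) ^ 2| ≤ N * (1 / (N : ℝ) ^ 2) :=
                mul_le_mul hnN hzd (abs_nonneg _) hNpos.le
            _ = 1 / N := by field_simp
        have hpi : 2 * Real.pi ≤ 7 := by linarith [Real.pi_lt_d2]
        calc 2 * Real.pi * ((n : ℝ) * |x - (z : ℝ) / (N : ℝ) ^ 2|) ≤ 7 * (1 / N) :=
              mul_le_mul hpi h10 (by positivity) (by norm_num)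
          _ = 7 / N := by ring
      have h14 : ‖(npi n t - npi n ((j : ℝ) / (N : ℝ) ^ 2)) * e (n * x) +
            npi n ((j : ℝ) / (N : ℝ) ^ 2) * (e (n * x) - e (n * ((z : ℝ) / (N : ℝ) ^ 2)))‖ ≤ 8 / N := by
        refine (norm_add_le _ _).trans ?_
        rw [norm_mul, norm_mul, u2_norm_e, mul_one]
        have h15 : ‖npi n ((j : ℝ) / (N : ℝ) ^ 2)‖ * ‖e (n * x) - e (n * ((z : ℝ) / (N : ℝ) ^ 2))‖ ≤
            1 * (7 / N) := mul_le_mul (Pool.Agent.Helper92.GB.RBaux.npi_norm _ _) h13 (norm_nonneg _) zero_le_one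
        have h16 := h11.trans h12
        have h17 : (8 : ℝ) / N = 1 / N + 1 * (7 / N) := by ring
        rw [h17]
        exact add_le_add h16 h15
      calc ‖b n‖ * (‖χ (n : ZMod (r + 1))‖ * ‖(npi n t - npi n ((j : ℝ) / (N : ℝ) ^ 2)) * e (n * x) +
            npi n ((j : ℝ) / (N : ℝ) ^ 2) * (e (n * x) - e (n * ((z : ℝ) / (N : ℝ) ^ 2)))‖)
          ≤ 1 * (1 * (8 / N)) :=
            mul_le_mul (hb n) (mul_le_mul (χ.norm_le_one _) h14 (norm_nonneg _) zero_le_one)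
              (by positivity) zero_le_one
        _ = 8 / N := by ring
    refine (Finset.sum_le_sum h1).trans ?_
    rw [Finset.sum_const, Nat.card_Icc, nsmul_eq_mul]
    have h2 : (((M + 1 - 1 : ℕ)) : ℝ) ≤ N := by
      have : M + 1 - 1 ≤ N := by omega
      exact_mod_cast this
    calc ((M + 1 - 1 : ℕ) : ℝ) * (8 / N) ≤ N * (8 / N) :=
          mul_le_mul_of_nonneg_right h2 (by positivity)
      _ = 8 := by field_simp
  have h3 := norm_sub_norm_le (∑ n ∈ Icc 1 M, b n * (χ (n : ZMod (r + 1)) * npi n t * e (n * x)))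
    (∑ n ∈ Icc 1 M, b n * (χ (n : ZMod (r + 1)) *
      npi n ((j : ℝ) / (N : ℝ) ^ 2) * e (n * ((y : ℝ) / (N : ℝ) ^ 2))))
  linarith

/-- the trivial bound -/
private theorem twist_triv (b : ℕ → ℂ) (hb : ∀ n, ‖b n‖ ≤ 1) (N q : ℕ)
    (χ : DirichletCharacter ℂ q) (t : ℝ) (M : ℕ) (hM : M ≤ N) (x : ℝ) :
    ‖∑ n ∈ Icc 1 M, b n * (χ (n : ZMod q) * npi n t * e (n * x))‖ ≤ N := by
  refine (norm_sum_le _ _).trans ?_
  have h1 : ∀ n ∈ Icc 1 M, ‖b n * (χ (n : ZMod q) * npi n t * e (n * x))‖ ≤ 1 := by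
    intro n _
    rw [norm_mul, norm_mul, norm_mul, u2_norm_e, mul_one]
    exact mul_le_one₀ (hb n) (by positivity)
      (mul_le_one₀ (χ.norm_le_one _) (norm_nonneg _) (Pool.Agent.Helper92.GB.RBaux.npi_norm _ _))
  refine (Finset.sum_le_sum h1).trans ?_
  rw [Finset.sum_const, Nat.card_Icc, nsmul_eq_mul, mul_one]
  have : M + 1 - 1 ≤ N := by omega
  exact_mod_cast this

private lemma ext_norm (f : ℕ → ℤˣ) (n : ℕ) : ‖((ext (fun n => ((f n : ℤˣ) : ℤ)) n : ℤ) : ℂ)‖ ≤ 1 := by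
  unfold Pool.Agent.Helper92.GB.ext
  split_ifs
  · rw [Int.cast_prod, norm_prod]
    refine Finset.prod_le_one (fun _ _ => norm_nonneg _) fun p _ => ?_
    rcases Int.units_eq_one_or (f p) with hp | hp <;> simp [hp]
  · simp

/-- Union bound over all twisted correlation sums. -/
theorem PIPET (k0 : ℕ) {I : Type} [DecidableEq I] [Encodable I] (c : I → Finset ℕ)
    (hdis : ∀ i j, i ≠ j → Disjoint (c i) (c j)) (w w0 : ∀ i, ({p // p ∈ c i} → ℤˣ) → ℝ)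
    (hw : ∀ i, IsPW (w i)) (hw0 : ∀ i, IsPW (w0 i)) (D : I → ℝ) (hD1 : ∀ i, 1 ≤ D i)
    (hD : ∀ i x, w i x ≤ D i * w0 i x) (rel : ℕ → Finset I)
    (hcov : ∀ (N p : ℕ), p.Prime → p ≤ 2 * N → ∃ i ∈ rel N, p ∈ c i)
    (CD : ℝ) (hDp : ∀ N : ℕ, 1 ≤ N → ∏ i ∈ rel N, D i ≤ CD * (N : ℝ) ^ 5)
    (Fl : ℕ → Type) [∀ N, Fintype (Fl N)] (sg : ∀ N, Fl N → ℕ → ℤˣ)
    (hFl : ∀ N : ℕ, 1 ≤ N → Fintype.card (Fl N) ≤ N)
    (hMB : ∀ k : ℕ, k0 ≤ k → ∀ (r : ℕ) (ε : ℝ), 0 < ε → ∃ C : ℝ, ∀ N : ℕ, 1 ≤ N →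
      ∀ h : Fin k → ℕ, Function.Injective h → (∀ i, h i ≤ N) → ∀ a : ℕ → ℝ, (∀ n, |a n| ≤ 1) →
      ∀ l : List I, l.Nodup → (∀ i, i ∈ l ↔ i ∈ rel N) →
      EL c w0 l (fun f => (∑ n ∈ sqf h N, a n * ch (kap h N n) f) ^ (2 ^ (r + 1))) (fun _ => 1) ≤
        C * (N : ℝ) ^ ((1 + ε) * 2 ^ r)) :
    ∃ f : ℕ → ℤˣ, (∀ i, 0 < w i (rs (c i) f)) ∧ ∀ k : ℕ, k0 ≤ k → ∀ ε : ℝ, 0 < ε →
      ∃ C : ℝ, ∀ (q : ℕ) (χ : DirichletCharacter ℂ q) (t : ℝ) (M N : ℕ), 1 ≤ q → M ≤ N → 1 ≤ N →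
        ∀ h : Fin k → ℕ, Function.Injective h → (∀ i, h i ≤ N) → ∀ (φ : Fl N) (x : ℝ),
        ‖cort (ext fun n => ((sg N φ n * f n : ℤˣ) : ℤ)) h χ t M x‖ ≤
          C * ((q : ℝ) * (1 + |t|) * N) ^ ε * (N : ℝ) ^ (1 / 2 : ℝ) := by
  obtain ⟨f, hf1, hf2⟩ := PIPEF k0 c hdis w w0 hw hw0 D hD1 hD rel hcov CD hDp Fl sg hFl hMB
    famT famT_norm (fun m => 3 * m + 8) (fun _ => 6) (fun _ => by norm_num) famT_card
  refine ⟨f, hf1, ?_⟩
  intro k hk ε hε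
  obtain ⟨m, hm⟩ := exists_nat_one_div_lt hε
  obtain ⟨C, hC0, hC⟩ := hf2 k hk m
  refine ⟨C + 9, ?_⟩
  intro q χ t M N hq hMN hN h hinj hle φ x
  have hNR : (1 : ℝ) ≤ N := by exact_mod_cast hN
  have hNpos : (0 : ℝ) < N := by linarith
  have hqR : (1 : ℝ) ≤ q := by exact_mod_cast hq
  have ht0 : (1 : ℝ) ≤ 1 + |t| := by linarith [abs_nonneg t]
  have hqt : (1 : ℝ) ≤ (q : ℝ) * (1 + |t|) := by nlinarith
  have hqtN : (1 : ℝ) ≤ (q : ℝ) * (1 + |t|) * N := by nlinarith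
  have hNq : (N : ℝ) ≤ (q : ℝ) * (1 + |t|) * N := by nlinarith
  have hm1 : (0 : ℝ) < 1 / ((m : ℝ) + 1) := by positivity
  have hE : (1 : ℝ) ≤ ((q : ℝ) * (1 + |t|) * N) ^ ε := Real.one_le_rpow hqtN hε.le
  have hH : (1 : ℝ) ≤ (N : ℝ) ^ (1 / 2 : ℝ) := Real.one_le_rpow hNR (by norm_num)
  have hb : ∀ n, ‖∏ i, ((ext (fun n => ((sg N φ n * f n : ℤˣ) : ℤ)) (n + h i) : ℤ) : ℂ)‖ ≤ 1 := by
    intro n
    rw [norm_prod]
    exact Finset.prod_le_one (fun _ _ => norm_nonneg _) fun i _ => ext_norm _ _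
  have hmono : ((q : ℝ) * (1 + |t|) * N) ^ (1 / ((m : ℝ) + 1)) ≤ ((q : ℝ) * (1 + |t|) * N) ^ ε :=
    Real.rpow_le_rpow_of_exponent_le hqtN hm.le
  unfold cort
  by_cases hbig : (q : ℝ) * (1 + |t|) ≤ (N : ℝ) ^ (m + 1)
  · have h1 := twist_le (fun n => ∏ i, ((ext (fun n => ((sg N φ n * f n : ℤˣ) : ℤ)) (n + h i) : ℤ) : ℂ))
      hb m N hN (C * (N : ℝ) ^ (1 / 2 + 1 / ((m : ℝ) + 1)))
      (fun a ha => hC N hN h hinj hle φ a ha) q hq χ t M hMN x hbig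
    refine h1.trans ?_
    have h2 : (N : ℝ) ^ (1 / 2 + 1 / ((m : ℝ) + 1)) ≤
        ((q : ℝ) * (1 + |t|) * N) ^ ε * (N : ℝ) ^ (1 / 2 : ℝ) := by
      rw [Real.rpow_add hNpos, mul_comm]
      refine mul_le_mul_of_nonneg_right ?_ (by positivity)
      exact (Real.rpow_le_rpow hNpos.le hNq hm1.le).trans hmono
    have h3 : (1 : ℝ) ≤ ((q : ℝ) * (1 + |t|) * N) ^ ε * (N : ℝ) ^ (1 / 2 : ℝ) := by nlinarith
    have h4 := mul_le_mul_of_nonneg_left h2 hC0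
    rw [mul_assoc (C + 9)]
    nlinarith
  · push Not at hbig
    refine (twist_triv _ hb N q χ t M hMN x).trans ?_
    have h2 : (N : ℝ) ≤ ((q : ℝ) * (1 + |t|) * N) ^ (1 / ((m : ℝ) + 1)) := by
      have h3 : ((N : ℝ) ^ (m + 1)) ≤ (q : ℝ) * (1 + |t|) * N := by
        have : (q : ℝ) * (1 + |t|) ≤ (q : ℝ) * (1 + |t|) * N := by nlinarith
        linarith
      calc (N : ℝ) = ((N : ℝ) ^ (m + 1)) ^ (1 / ((m : ℝ) + 1)) := by
            rw [← Real.rpow_natCast, ← Real.rpow_mul hNpos.le]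
            push_cast
            rw [mul_one_div_cancel (by positivity), Real.rpow_one]
        _ ≤ _ := Real.rpow_le_rpow (by positivity) h3 hm1.le
    have h3 := h2.trans hmono
    have h4 : (0 : ℝ) ≤ ((q : ℝ) * (1 + |t|) * N) ^ ε := by positivity
    rw [mul_assoc (C + 9)]
    have h5 : ((q : ℝ) * (1 + |t|) * N) ^ ε ≤ ((q : ℝ) * (1 + |t|) * N) ^ ε * (N : ℝ) ^ (1 / 2 : ℝ) := by
      nlinarith
    nlinarith

end Pool.Agent.Helper5.JB
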