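import Pool.Agent.Helper92.GB.Theta
import Pool.Agent.Helper92.GB.U3
import Pool.Agent.Helper92.CB.UP
import Pool.Agent.Helper5.JB.EX3
import Pool.Agent.Helper5.JB.HALF3

/-!
# MP_b6b996_nt: what the Riemann hypothesis bounds, the correlations and multiplicativity give together

For an integer valued function `g` let `θ(g)` be the growth exponent of
`sup_x |∑_{n ≤ N} g(n) e(n x)|`. Let `A` be the class of the multiplicative `g` with `g² = μ²` whose
sums twisted by `χ(n) n^{it}` satisfy the bounds that the generalised Riemann hypothesis gives for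
`μ`, `B` the class of those with square root cancellation in the correlations of every order,
uniformly in the shifts and also twisted by additive characters, and `S` the class of the members of `A`
whose correlations of every order `k ≥ 2` have square root cancellation also when they are twisted by
`χ(n) n^{it} e(n x)`, uniformly in the shifts and in all twists. Then `S ⊆ A ∩ B`, and for every class `K`
between `S` and `A ∪ B` the least value of `θ(g)` is `1/2` and the greatest value is `3/4`.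
-/

set_option autoImplicit false

namespace Pool.Agent.Helper5.JB.Joint

open Finset

/-- The exponential sum `∑ g(n) e^{2 π i n x}` over `1 ≤ n ≤ N`. -/
noncomputable def F (g : ℕ → ℤ) (N : ℕ) (x : ℝ) : ℂ :=
  ∑ n ∈ Icc 1 N, (g n : ℂ) * Complex.exp (2 * Real.pi * Complex.I * n * x)

/-- The growth exponent of the sup norm of the exponential sums of `g`. -/
noncomputable def theta (g : ℕ → ℤ) : ℝ :=
  sInf {a : ℝ | 0 ≤ a ∧ ∃ C : ℝ, ∀ N : ℕ, 1 ≤ N → ∀ x : ℝ, x ∈ Set.Icc (0 : ℝ) 1 →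
    ‖F g N x‖ ≤ C * (N : ℝ) ^ a}

/-- The multiplicative functions `g` with `g² = μ²` whose sums twisted by Dirichlet characters and by
`n^{it}` satisfy the bounds which the generalised Riemann hypothesis gives for the Moebius function. -/
def RHClass : Set (ℕ → ℤ) :=
  {g | (∀ m n : ℕ, m.Coprime n → g (m * n) = g m * g n) ∧
    (∀ n : ℕ, g n ^ 2 = ArithmeticFunction.moebius n ^ 2) ∧
    ∀ ε : ℝ, 0 < ε → ∃ C : ℝ, ∀ (q : ℕ) (χ : DirichletCharacter ℂ q) (t : ℝ) (N : ℕ),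
      1 ≤ q → 1 ≤ N →
      ‖∑ n ∈ Icc 1 N, (g n : ℂ) * χ n * (n : ℂ) ^ ((t : ℂ) * Complex.I)‖ ≤
        C * ((q : ℝ) * (1 + |t|) * N) ^ ε * (N : ℝ) ^ (1 / 2 : ℝ)}

/-- The correlation sum `∑ g(n + h₁) ⋯ g(n + h_k) e^{2 π i n x}` over `1 ≤ n ≤ M`. -/
noncomputable def corr (g : ℕ → ℤ) {k : ℕ} (h : Fin k → ℕ) (M : ℕ) (x : ℝ) : ℂ :=
  ∑ n ∈ Icc 1 M, (∏ i, (g (n + h i) : ℂ)) * Complex.exp (2 * Real.pi * Complex.I * n * x)

/-- The multiplicative functions `g` with `g² = μ²` with square root cancellation in the sum and in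
all correlations of order `k ≥ 2`, these twisted by `e(n x)`, uniformly in `x`, in the length
`M ≤ N` and in the distinct shifts `0 ≤ h i ≤ N`. -/
def ChowlaClass : Set (ℕ → ℤ) :=
  {g | (∀ m n : ℕ, m.Coprime n → g (m * n) = g m * g n) ∧
    (∀ n : ℕ, g n ^ 2 = ArithmeticFunction.moebius n ^ 2) ∧
    (∀ ε : ℝ, 0 < ε → ∃ C : ℝ, ∀ N : ℕ, 1 ≤ N →
      |((∑ n ∈ Icc 1 N, g n : ℤ) : ℝ)| ≤ C * (N : ℝ) ^ (1 / 2 + ε)) ∧
    ∀ k : ℕ, 2 ≤ k → ∀ ε : ℝ, 0 < ε → ∃ C : ℝ, ∀ M N : ℕ, M ≤ N → 1 ≤ N →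
      ∀ h : Fin k → ℕ, Function.Injective h → (∀ i, h i ≤ N) → ∀ x : ℝ,
        ‖corr g h M x‖ ≤ C * (N : ℝ) ^ (1 / 2 + ε)}

/-- The twisted correlation sum `∑ g(n + h₁) ⋯ g(n + h_k) χ(n) n^{it} e^{2 π i n x}` over `1 ≤ n ≤ M`. -/
noncomputable def corrTw (g : ℕ → ℤ) {k : ℕ} (h : Fin k → ℕ) {q : ℕ} (χ : DirichletCharacter ℂ q)
    (t : ℝ) (M : ℕ) (x : ℝ) : ℂ :=
  ∑ n ∈ Icc 1 M, (∏ i, (g (n + h i) : ℂ)) *
    (χ n * (n : ℂ) ^ ((t : ℂ) * Complex.I) * Complex.exp (2 * Real.pi * Complex.I * n * x))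

/-- The members of `RHClass` whose correlations of every order `k ≥ 2` have square root cancellation, also
when twisted by `χ(n) n^{it} e(n x)`, uniformly in the character, in `t`, in `x`, in the length `M ≤ N` and in
the distinct shifts `0 ≤ h i ≤ N`. -/
def StrongClass : Set (ℕ → ℤ) :=
  {g | g ∈ RHClass ∧
    ∀ k : ℕ, 2 ≤ k → ∀ ε : ℝ, 0 < ε → ∃ C : ℝ, ∀ (q : ℕ) (χ : DirichletCharacter ℂ q) (t : ℝ) (M N : ℕ),
      1 ≤ q → M ≤ N → 1 ≤ N → ∀ h : Fin k → ℕ, Function.Injective h → (∀ i, h i ≤ N) → ∀ x : ℝ,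
        ‖corrTw g h χ t M x‖ ≤ C * ((q : ℝ) * (1 + |t|) * N) ^ ε * (N : ℝ) ^ (1 / 2 : ℝ)}

lemma F_eq (g : ℕ → ℤ) (N : ℕ) (x : ℝ) : F g N x = Helper92.GB.F g N x := by
  unfold F Helper92.GB.F Helper92.GB.e
  refine Finset.sum_congr rfl fun n _ => ?_
  congr 2
  push_cast
  ring

lemma theta_eq (g : ℕ → ℤ) : theta g = Helper92.GB.theta g := by
  unfold theta Helper92.GB.theta
  simp only [F_eq]

lemma corr_eq (g : ℕ → ℤ) {k : ℕ} (h : Fin k → ℕ) (M : ℕ) (x : ℝ) :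
    corr g h M x = Helper92.CB.corr g h M x := by
  unfold corr Helper92.CB.corr Helper92.GB.e
  refine Finset.sum_congr rfl fun n _ => ?_
  congr 2
  push_cast
  ring

lemma corrTw_eq (g : ℕ → ℤ) {k : ℕ} (h : Fin k → ℕ) {q : ℕ} (χ : DirichletCharacter ℂ q)
    (t : ℝ) (M : ℕ) (x : ℝ) : corrTw g h χ t M x = cort g h χ t M x := by
  unfold corrTw cort Helper92.GB.e
  refine Finset.sum_congr rfl fun n _ => ?_
  congr 2
  congr 1
  push_cast
  ring

lemma rh_iff (g : ℕ → ℤ) : g ∈ RHClass ↔ Helper92.GB.GRHClass g := by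
  constructor
  · rintro ⟨h1, h2, h3⟩
    exact ⟨h1, h2, h3⟩
  · rintro ⟨h1, h2, h3⟩
    exact ⟨h1, h2, h3⟩

lemma chowla_iff (g : ℕ → ℤ) : g ∈ ChowlaClass ↔ Helper92.CB.ChowlaClass g := by
  constructor
  · rintro ⟨h1, h2, h3, h4⟩
    refine ⟨h1, h2, h3, fun k hk ε hε => ?_⟩
    obtain ⟨C, hC⟩ := h4 k hk ε hε
    refine ⟨C, fun M N hM hN h hh hl x => ?_⟩
    rw [← corr_eq]
    exact hC M N hM hN h hh hl x
  · rintro ⟨h1, h2, h3, h4⟩
    refine ⟨h1, h2, h3, fun k hk ε hε => ?_⟩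
    obtain ⟨C, hC⟩ := h4 k hk ε hε
    refine ⟨C, fun M N hM hN h hh hl x => ?_⟩
    rw [corr_eq]
    exact hC M N hM hN h hh hl x

lemma strong_of (g : ℕ → ℤ) (h1 : Helper92.GB.GRHClass g) (h2 : TWC g) : g ∈ StrongClass := by
  refine ⟨(rh_iff g).mpr h1, fun k hk ε hε => ?_⟩
  obtain ⟨C, hC⟩ := h2 k hk ε hε
  refine ⟨C, fun q χ t M N hq hM hN h hh hl x => ?_⟩
  rw [corrTw_eq]
  exact hC q χ t M N hq hM hN h hh hl x

/-- The twisted class is contained in both classes. -/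
lemma strong_subset : StrongClass ⊆ RHClass ∩ ChowlaClass := by
  rintro g ⟨h1, h2⟩
  have hone : ((1 : DirichletCharacter ℂ 1) (1 : ZMod 1)) = 1 := by
    apply MulChar.one_apply
    exact isUnit_of_subsingleton _
  have hpow : ∀ n : ℕ, (n : ℂ) ^ (((0 : ℝ) : ℂ) * Complex.I) = 1 := by
    intro n
    rw [Complex.ofReal_zero, zero_mul, Complex.cpow_zero]
  have hchar : ∀ n : ℕ, ((1 : DirichletCharacter ℂ 1) (n : ZMod 1)) = 1 := by
    intro n
    rw [Subsingleton.elim (n : ZMod 1) 1]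
    exact hone
  have hcst : ∀ (N : ℕ) (ε : ℝ), 1 ≤ N → (((1 : ℕ) : ℝ) * (1 + |(0 : ℝ)|) * N) ^ ε *
      (N : ℝ) ^ (1 / 2 : ℝ) = (N : ℝ) ^ (1 / 2 + ε) := by
    intro N ε hN
    have hN0 : (0 : ℝ) < N := by exact_mod_cast hN
    have : ((1 : ℕ) : ℝ) * (1 + |(0 : ℝ)|) * N = N := by simp
    rw [this, Real.rpow_add hN0, mul_comm]
  refine ⟨h1, h1.1, h1.2.1, ?_, ?_⟩
  · intro ε hε
    obtain ⟨C, hC⟩ := h1.2.2 ε hε
    refine ⟨C, fun N hN => ?_⟩
    have h3 := hC 1 1 0 N le_rfl hN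
    rw [mul_assoc C, hcst N ε hN] at h3
    have h4 : ∑ n ∈ Icc 1 N, (g n : ℂ) * (1 : DirichletCharacter ℂ 1) n *
        (n : ℂ) ^ (((0 : ℝ) : ℂ) * Complex.I) = (((∑ n ∈ Icc 1 N, g n : ℤ) : ℝ) : ℂ) := by
      push_cast
      refine Finset.sum_congr rfl fun n _ => ?_
      have h5 := hpow n
      push_cast at h5
      rw [hchar, h5, mul_one, mul_one]
    rw [h4, Complex.norm_real, Real.norm_eq_abs] at h3
    exact h3
  · intro k hk ε hε
    obtain ⟨C, hC⟩ := h2 k hk ε hε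
    refine ⟨C, fun M N hM hN h hh hl x => ?_⟩
    have h3 := hC 1 1 0 M N le_rfl hM hN h hh hl x
    rw [mul_assoc C, hcst N ε hN] at h3
    have h4 : corrTw g h (1 : DirichletCharacter ℂ 1) 0 M x = corr g h M x := by
      unfold corrTw corr
      refine Finset.sum_congr rfl fun n _ => ?_
      rw [hchar, hpow, one_mul, one_mul]
    rw [h4] at h3
    exact h3

/-- The class with the twisted correlations is contained in both classes, and for every class between it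
and the union of the two classes the least growth exponent is `1/2` and the greatest is `3/4`. -/
theorem result : StrongClass ⊆ RHClass ∩ ChowlaClass ∧
    ∀ K : Set (ℕ → ℤ), StrongClass ⊆ K → K ⊆ RHClass ∪ ChowlaClass →
      IsLeast (theta '' K) (1 / 2) ∧ IsGreatest (theta '' K) (3 / 4) := by
  refine ⟨strong_subset, fun K h1 h2 => ?_⟩
  have hU : ∀ g ∈ K, ∀ ε : ℝ, 0 < ε → ∃ C : ℝ, ∀ N : ℕ, 1 ≤ N →
      ∀ x : ℝ, ‖Helper92.GB.F g N x‖ ≤ C * (N : ℝ) ^ (3 / 4 + ε) := by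
    intro g hg
    rcases h2 hg with h | h
    · exact Helper92.GB.U3 g ((rh_iff g).mp h)
    · exact Helper92.CB.UP g ((chowla_iff g).mp h)
  have hU' : ∀ g ∈ K, ∃ a : ℝ, 0 ≤ a ∧ ∃ C : ℝ, ∀ N : ℕ, 1 ≤ N →
      ∀ x : ℝ, x ∈ Set.Icc (0 : ℝ) 1 → ‖Helper92.GB.F g N x‖ ≤ C * (N : ℝ) ^ a := by
    intro g hg
    obtain ⟨C, hC⟩ := hU g hg 1 one_pos
    exact ⟨3 / 4 + 1, by norm_num, C, fun N hN x _ => hC N hN x⟩
  have hsq : ∀ g ∈ K, ∀ n : ℕ, g n ^ 2 = ArithmeticFunction.moebius n ^ 2 := by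
    intro g hg
    rcases h2 hg with h | h
    · exact h.2.1
    · exact h.2.1
  refine ⟨⟨?_, ?_⟩, ⟨?_, ?_⟩⟩
  · obtain ⟨g, ⟨hg1, hg2⟩, h⟩ := HALF3
    have hg : g ∈ K := h1 (strong_of g hg1 hg2)
    refine ⟨g, hg, ?_⟩
    rw [theta_eq]
    exact le_antisymm (Helper92.GB.theta_le g _ (by norm_num) h)
      (Helper92.GB.half_le_theta g (hsq g hg) (hU' g hg))
  · rintro _ ⟨g, hg, rfl⟩
    rw [theta_eq]
    exact Helper92.GB.half_le_theta g (hsq g hg) (hU' g hg)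
  · obtain ⟨g, ⟨hg1, hg2⟩, h⟩ := EX3
    have hg : g ∈ K := h1 (strong_of g hg1 hg2)
    refine ⟨g, hg, ?_⟩
    rw [theta_eq]
    exact le_antisymm (Helper92.GB.theta_le g _ (by norm_num) (hU g hg))
      (Helper92.GB.le_theta g _ (hU' g hg) h)
  · rintro _ ⟨g, hg, rfl⟩
    rw [theta_eq]
    exact Helper92.GB.theta_le g _ (by norm_num) (hU g hg)

end Pool.Agent.Helper5.JB.Joint
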